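import Pool.Agent.BEN.StmtsB

/-!
# Squad BEG (MP_be01ff_an): the final state theorem in a symmetric subspace. Definitions.

`K` is a closed subspace of `L²(Ω)`, for instance the space of the functions invariant under a set of
isometries of `Ω`.
-/

namespace Pool.Agent.BEG

open Set Filter Topology MeasureTheory
open scoped InnerProductSpace ENNReal
open Pool.Agent.BE01 Pool.Agent.BEL Pool.Agent.BEF Pool.Agent.BEN Pool.Agent.BEH

noncomputable section

variable {d : ℕ}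

/-- The isometry `x ↦ A x + b`. -/
def mv (g : (En d ≃ₗᵢ[ℝ] En d) × En d) (x : En d) : En d := g.1 x + g.2

/-- The inverse isometry `y ↦ A⁻¹ y - A⁻¹ b`. -/
def gi (g : (En d ≃ₗᵢ[ℝ] En d) × En d) : (En d ≃ₗᵢ[ℝ] En d) × En d := (g.1.symm, -g.1.symm g.2)

/-- `G` is a set of isometries of `ℝ^d` mapping `Ω` onto itself. -/
def Syms (Ω : Set (En d)) (G : Set ((En d ≃ₗᵢ[ℝ] En d) × En d)) : Prop := ∀ g ∈ G, mv g '' Ω = Ω

/-- `u` is invariant under all isometries of `G`. -/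
def Inv (Ω : Set (En d)) (G : Set ((En d ≃ₗᵢ[ℝ] En d) × En d)) (u : Lp ℝ 2 (mu Ω)) : Prop :=
  ∀ g ∈ G, (fun x => u (mv g x)) =ᵐ[mu Ω] u

/-- The weak equation `- Δ u = h` for the gradient `F` of `u`. -/
def Wk (Ω : Set (En d)) (F : Lp (En d) 2 (mu Ω)) (h : Lp ℝ 2 (mu Ω)) : Prop :=
  ∀ ψ, Tst Ω ψ → ∫ x, ⟪F x, gradient ψ x⟫_ℝ ∂(mu Ω) = ∫ x, h x * ψ x ∂(mu Ω)

/-- The properties of the subspace: closed, contains the constants, contains the products of its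
elements which are in `L²`, and the solutions of the Dirichlet problem. -/
structure Kst (Ω : Set (En d)) (K : Submodule ℝ (Lp ℝ 2 (mu Ω))) : Prop where
  closed : IsClosed (K : Set (Lp ℝ 2 (mu Ω)))
  one : ∀ f : Lp ℝ 2 (mu Ω), f =ᵐ[mu Ω] (fun _ => 1) → f ∈ K
  mul : ∀ f g h : Lp ℝ 2 (mu Ω), f ∈ K → g ∈ K → h =ᵐ[mu Ω] (fun x => f x * g x) → h ∈ K
  slv : ∀ h ∈ K, ∀ (u : Lp ℝ 2 (mu Ω)) (F : Lp (En d) 2 (mu Ω)), (u, F) ∈ H10 Ω → Wk Ω F h → u ∈ K

section res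

variable {X X' H : Type} [NormedCommRing X] [NormedAlgebra ℝ X] [NormedCommRing X']
  [NormedAlgebra ℝ X'] [NormedAddCommGroup H] [InnerProductSpace ℝ H]

/-- `X'` is the algebra of the elements of `X` which are in `K`, with the restricted operators; `H`
is not restricted. -/
structure Rsx (W : Wx X H) (W' : Wx X' H) (i : X' →ₐ[ℝ] X) (K : Submodule ℝ H) : Prop where
  nrm : ∀ x, ‖i x‖ = ‖x‖
  S : W'.S = W.S
  R : W'.R = W.R
  e : ∀ x, W.e (i x) = W'.e x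
  SX : ∀ x, i (W'.SX x) = W.SX (i x)
  mem : ∀ x, W'.e x ∈ K
  rng : ∀ x, W.e x ∈ K → ∃ x', i x' = x

end res

end

end Pool.Agent.BEG
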