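import Pool.Agent.BEG.Defs
import Pool.Agent.Helper70_BE01.All

/-!
# Squad BEG (MP_be01ff_an): the final state theorem in a symmetric subspace. Statements.

PLAN.  `Ω ⊂ ℝ^d` bounded open, `G` a set of isometries of `ℝ^d` mapping `Ω` onto itself, `α = 2p`.
THEOREM `F_G` (`d ≥ 2`): if `l` has a `G`-invariant eigenfunction and `n² l` has a `G`-invariant
eigenfunction for only finitely many odd `n`, there is a solution with the sharp rate.  The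
approximate solution of squad BEN takes its values in the subalgebra `X'` of the invariant elements
of `X = L^∞`; the remainder is found in the full space by the rows TMN, JST, SOL, FNE of BEN.
EXPLICIT FORM (`d = 2, 3`): for an eigenvalue simple in the invariant subspace, with the order of
`fnl2` (squad BE01): all spaces are restricted.
-/

namespace Pool.Agent.BEG

open Set Filter Topology MeasureTheory
open scoped InnerProductSpace ENNReal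
open Pool.Agent.BE01 Pool.Agent.BEL Pool.Agent.BEF Pool.Agent.BEN Pool.Agent.BEH

noncomputable section

/-! ## Part 1: isometries -/

/-- MGP: `mv g` preserves the measure `mu Ω`.  `LinearIsometryEquiv.measurePreserving`,
`measurePreserving_add_right`; `MeasurePreserving.restrict_preimage` with
`(mv g)⁻¹' Ω = Ω` (`mv g` is injective).  Also: `gi g` is the inverse and maps `Ω` onto `Ω`. -/
def MgpStmt : Prop := ∀ (d : ℕ) (Ω : Set (En d)) (g : (En d ≃ₗᵢ[ℝ] En d) × En d), IsOpen Ω →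
  mv g '' Ω = Ω → MeasurePreserving (mv g) (mu Ω) (mu Ω) ∧ mv (gi g) '' Ω = Ω ∧
  (∀ x, mv (gi g) (mv g x) = x) ∧ (∀ x, mv g (mv (gi g) x) = x) ∧ Continuous (mv g) ∧
  mv g ⁻¹' Ω = Ω

/-- TGT: test functions.  Chain rule `fderiv (ψ ∘ mv g) x = (fderiv ψ (mv g x)) ∘ A`, and
`⟪∇ψ(g x), A v⟫ = ⟪A⁻¹ ∇ψ(g x), v⟫`.  The support is the preimage under the homeomorphism `mv g`
(`tsupport_comp_eq_preimage` or by hand), compact and contained in `(mv g)⁻¹' Ω = Ω`. -/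
def TgtStmt : Prop := ∀ (d : ℕ) (Ω : Set (En d)) (g : (En d ≃ₗᵢ[ℝ] En d) × En d)
  (ψ : En d → ℝ), mv g '' Ω = Ω → Tst Ω ψ → Tst Ω (fun x => ψ (mv g x)) ∧
  ∀ x, gradient (fun y => ψ (mv g y)) x = g.1.symm (gradient ψ (mv g x))

/-- THG: the Sobolev space (uses MGP, TGT).  Proof: `P ↦ (P.1 ∘ mv g, A⁻¹ (P.2 ∘ mv g))` is a
continuous map of `L² × L²` into itself (`Lp.compMeasurePreserving` is an isometry, and
`ContinuousLinearMap.compLp`) mapping the pairs `(ψ, ∇ψ)` to such pairs (TGT; a.e. identities may be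
composed with `mv g`, MGP), so it maps the closure to the closure; `(u', F')` is the image of
`(u, F)`. -/
def ThgStmt : Prop := ∀ (d : ℕ) (Ω : Set (En d)) (g : (En d ≃ₗᵢ[ℝ] En d) × En d)
  (u u' : Lp ℝ 2 (mu Ω)) (F F' : Lp (En d) 2 (mu Ω)), IsOpen Ω → mv g '' Ω = Ω → (u, F) ∈ H10 Ω →
  u' =ᵐ[mu Ω] (fun x => u (mv g x)) → F' =ᵐ[mu Ω] (fun x => g.1.symm (F (mv g x))) →
  (u', F') ∈ H10 Ω

/-- WEG: the weak equation (uses MGP, TGT).  Proof: `⟪A⁻¹ F(g x), ∇ψ(x)⟫ = ⟪F(g x), A ∇ψ(x)⟫`, and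
`A ∇ψ(x) = ∇(ψ ∘ g⁻¹)(g x)` (TGT for `gi g`); change of variables (`MeasurePreserving.integral_comp`
with the measurable embedding `mv g`), the equation for the test function `ψ ∘ g⁻¹`, and back. -/
def WegStmt : Prop := ∀ (d : ℕ) (Ω : Set (En d)) (g : (En d ≃ₗᵢ[ℝ] En d) × En d)
  (h h' : Lp ℝ 2 (mu Ω)) (F F' : Lp (En d) 2 (mu Ω)), IsOpen Ω → mv g '' Ω = Ω → Wk Ω F h →
  h' =ᵐ[mu Ω] (fun x => h (mv g x)) → F' =ᵐ[mu Ω] (fun x => g.1.symm (F (mv g x))) → Wk Ω F' h'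

/-- UNQ: uniqueness for the Dirichlet problem (citable: `Pool.Agent.BEL.H53.empA : EmpStmt`).
Proof: `F - F'` is in `VV Ω` (`Grf`) and orthogonal to the gradients of all test functions, so
`F = F'`, and `u = ι F = ι F' = u'`. -/
def UnqStmt : Prop := ∀ (d : ℕ) (Ω : Set (En d)) (u u' h : Lp ℝ 2 (mu Ω))
  (F F' : Lp (En d) 2 (mu Ω)), 0 < d → Dom Ω → (u, F) ∈ H10 Ω → (u', F') ∈ H10 Ω → Wk Ω F h →
  Wk Ω F' h → u = u'

/-- KSY: the subspace of the invariant functions (uses MGP, THG, WEG, UNQ).  Proof: `K` is the set of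
the invariant `u`; the map `u ↦ u ∘ mv g` is a linear isometry of `L²` (`Lp.compMeasurePreserving`),
so `K` is a closed subspace.  `one`, `mul`: compose the a.e. identities with `mv g`
(`MeasurePreserving.quasiMeasurePreserving.ae_eq_comp`).  `slv`: `(u ∘ g, A⁻¹ (F ∘ g))` is in `H10`
(THG) and solves the equation with `h ∘ g = h` (WEG): `u ∘ g = u` (UNQ). -/
def KsyStmt : Prop := ∀ (d : ℕ) (Ω : Set (En d)) (G : Set ((En d ≃ₗᵢ[ℝ] En d) × En d)),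
  0 < d → Dom Ω → Syms Ω G →
  ∃ K : Submodule ℝ (Lp ℝ 2 (mu Ω)), Kst Ω K ∧ ∀ u, u ∈ K ↔ Inv Ω G u

/-! ## Part 2: the theorem in all dimensions -/

/-- SBK: the restricted algebra (no hypotheses).  Proof: `X'` is the subalgebra
`{x : X | W.e x ∈ K}` (`Kst.one`, `Kst.mul` with `Xok.one`, `Xok.mul`; `e (algebraMap r) = r • e 1`)
with the norm of `X`, `i` the inclusion, `W'.e = W.e ∘ i`, `W'.SX` the restriction of `W.SX`: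
`e (SX x) = S (e x) ∈ K` by `Kst.slv` with `F = Z (e x)` (`Wok.dom`, `Wok.weak`). -/
def SbkStmt : Prop := ∀ (d : ℕ) (Ω : Set (En d)) (X : Type) [NormedCommRing X]
  [NormedAlgebra ℝ X] (W : Wx X (Lp ℝ 2 (mu Ω)))
  (Z : Lp ℝ 2 (mu Ω) →L[ℝ] Lp (En d) 2 (mu Ω)) (K : Submodule ℝ (Lp ℝ 2 (mu Ω))),
  Xok W → Wok Ω W Z → Kst Ω K →
  ∃ (X' : Type) (_ : NormedCommRing X') (_ : NormedAlgebra ℝ X')
    (W' : Wx X' (Lp ℝ 2 (mu Ω))) (i : X' →ₐ[ℝ] X), Rsx W W' i K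

/-- TXK: the approximate solution in the full space (no hypotheses).  `i` is continuous linear
(norm preserving), multiplicative, commutes with `SX`, and `e (i x) = e x`, `R' = R`. -/
def TxkStmt : Prop := ∀ (X X' H : Type) [NormedCommRing X] [NormedAlgebra ℝ X]
  [NormedCommRing X'] [NormedAlgebra ℝ X'] [NormedAddCommGroup H] [InnerProductSpace ℝ H]
  (W : Wx X H) (W' : Wx X' H) (i : X' →ₐ[ℝ] X) (K : Submodule ℝ H) (s p : ℕ)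
  (a0 k t1 b N1 c C : ℝ) (w r : ℕ → ℝ → X') (g : ℝ → X'), Rsx W W' i K →
  Tmx W' s p a0 k t1 b N1 c C w r g →
  Tmx W s p a0 k t1 b N1 c C (fun j t => i (w j t)) (fun j t => i (r j t)) (fun t => i (g t))

/-- SLK: the eigenspace in `K` and solvability in `X'` (uses BTS of BEN, `BEF.FrmStmt`,
`BE01.FreStmt`).  Proof: as SLX of BEN, with FRM and FRE applied to the Hilbert space `K` (complete,
as it is closed) and the restriction of `S` to `K` (`ContinuousLinearMap.codRestrict`; compact: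
`IsCompactOperator.comp_clm`, `.codRestrict`; symmetric).  An element `q` of `K` with
`q = e y + c S q` comes from `X` (BTS) and so from `X'` (`Rsx.rng`); identities in `X'` follow from
those in `H` (`W'.e` is injective). -/
def SlkStmt : Prop := ∀ (T : Type) [MeasurableSpace T] (μ : Measure T) [IsFiniteMeasure μ]
  (s : ℕ) (C0 ω : ℝ) (X X' : Type) [NormedCommRing X] [NormedAlgebra ℝ X] [NormedCommRing X']
  [NormedAlgebra ℝ X'] (W : Wx X (Lp ℝ 2 μ)) (W' : Wx X' (Lp ℝ 2 μ)) (i : X' →ₐ[ℝ] X)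
  (K : Submodule ℝ (Lp ℝ 2 μ)), 2 ≤ s → Xok W → Sbd W s C0 → IsCompactOperator W.S → 0 < ω →
  IsClosed (K : Set (Lp ℝ 2 μ)) → (∀ h ∈ K, W.S h ∈ K) → Rsx W W' i K →
  ∃ (m : ℕ) (φ : Fin m → X'), Evx W' ω φ ∧
    (∀ u ∈ K, u = (ω ^ 2) • W.S u → u ∈ Submodule.span ℝ (Set.range fun i => W'.e (φ i))) ∧
    ∀ M : ℕ, (∀ n : ℕ, Odd n → 3 ≤ n → n ≤ M → ∀ u ∈ K,
      u = ((n : ℝ) ^ 2 * ω ^ 2) • W.S u → u = 0) → Slx W' ω φ M

/-- MAK: the main theorem (uses ASN, TMN, JST, SOL, FNE, NEX of BEN and TXK; compare MAI, FNN).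
Proof: `V = |Ω|`, `V' = max 1 V`, `C1 = V' (2(1+C0))^(d+1)`, `κ = 2(2p+1) C1 (2^d)^(2p) V'^(2p)`,
`s = d`.  NEX for `W'` (`⟪e x^(2p+1), e x⟫ = ∫ (e (i x))^(2p+2) > 0` for `x ≠ 0`, `Xok.mul`, `Xok.one`)
gives `β`; `M` from ASN with `B = max ω (Σ ‖φ_i‖) + 1`.  For `a > 0`: ASN for `W'` gives `Tmx W'`, TXK gives
`Tmx W`; JST and SOL for `W`, `μ = mu Ω`; TMN for `W` gives `Slu W p a`, and FNE. -/
def MakStmt : Prop := ∀ (d : ℕ) (Ω : Set (En d)) (p : ℕ) (C0 : ℝ) (X X' : Type)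
  [NormedCommRing X] [NormedAlgebra ℝ X] [NormedCommRing X'] [NormedAlgebra ℝ X']
  (W : Wx X (Lp ℝ 2 (mu Ω))) (W' : Wx X' (Lp ℝ 2 (mu Ω))) (i : X' →ₐ[ℝ] X)
  (K : Submodule ℝ (Lp ℝ 2 (mu Ω))) (Z : Lp ℝ 2 (mu Ω) →L[ℝ] Lp (En d) 2 (mu Ω))
  (m : ℕ) (ω : ℝ) (φ : Fin m → X'), 2 ≤ d → Dom Ω → 1 ≤ p → 0 < C0 → Xok W → Wok Ω W Z →
  Sbd W d C0 → Rsx W W' i K → 1 ≤ m → 0 < ω → Evx W' ω φ →
  ∃ M : ℕ, Slx W' ω φ M → ∀ a : ℝ, 0 < a → Rt Ω a ((2 * p : ℕ) : ℝ)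

/-- FKN: the theorem for a subspace (uses WXC of BEN, SBK, SLK, MAK).  Proof: WXC with `Ω' = Ω`;
`S h ∈ K` for `h ∈ K` by `Kst.slv`; `l > 0` and `ω = √l`; SLK: `m ≥ 1` because `φ ≠ 0` is in the span;
`Wok.eig` translates between `IsEig` and `u = l • S u`. -/
def FknStmt : Prop := ∀ (d : ℕ) (Ω : Set (En d)) (K : Submodule ℝ (Lp ℝ 2 (mu Ω))) (p : ℕ)
  (l : ℝ) (φ : Lp ℝ 2 (mu Ω)), 2 ≤ d → Dom Ω → Kst Ω K → 1 ≤ p → φ ∈ K → φ ≠ 0 → IsEig Ω l φ →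
  ∃ M : ℕ, (∀ n : ℕ, Odd n → 3 ≤ n → n ≤ M → ∀ u ∈ K, IsEig Ω ((n : ℝ) ^ 2 * l) u → u = 0) →
    ∀ a : ℝ, 0 < a → Rt Ω a ((2 * p : ℕ) : ℝ)

/-- FGG: THEOREM `F_G` (uses KSY, FKN; compare FNF of BEF): the largest odd `n` such that `n² l` has
a nonzero invariant eigenfunction, and FKN for `n² l`. -/
def FggStmt : Prop := ∀ (d : ℕ) (Ω : Set (En d)) (G : Set ((En d ≃ₗᵢ[ℝ] En d) × En d)) (p : ℕ)
  (a l : ℝ) (φ : Lp ℝ 2 (mu Ω)), 2 ≤ d → Dom Ω → Syms Ω G → 1 ≤ p → 0 < a → Inv Ω G φ → φ ≠ 0 →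
  IsEig Ω l φ →
  {n : ℕ | Odd n ∧ ∃ u : Lp ℝ 2 (mu Ω), Inv Ω G u ∧ u ≠ 0 ∧ IsEig Ω ((n : ℝ) ^ 2 * l) u}.Finite →
  Rt Ω a ((2 * p : ℕ) : ℝ)

/-! ## Part 3: the explicit form, `d = 2, 3` -/

/-- ALK: the algebra of the bounded elements of `K` (uses `Pool.Agent.BE01.H72.alg : AlgStmt`; or
copy `Helper72_BE01/Alg.lean`).  Proof: from `AlgStmt`: `X0`, `A0`.  In `A0`: `mH x h = (e x) h` and
`B y y' = y y'` almost everywhere (both sides are continuous in `h ∈ L²`, `y, y' ∈ L⁴`; they agree on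
bounded functions by `mY_i`, `j_mY`, `B_i` and the formula for `e (x x')`; bounded functions are
dense).  `X = {x : A0.e x ∈ K}` (closed subalgebra), `Y = {y : A0.j y ∈ K}` (closed subspace of
`L⁴`), all maps restricted; the products stay in `K` by the third hypothesis. -/
def AlkStmt : Prop := ∀ (T : Type) [MeasurableSpace T] (μ : Measure T) [IsFiniteMeasure μ]
  (K : Submodule ℝ (Lp ℝ 2 μ)), IsClosed (K : Set (Lp ℝ 2 μ)) →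
  (∀ f : Lp ℝ 2 μ, f =ᵐ[μ] (fun _ => 1) → f ∈ K) →
  (∀ f g h : Lp ℝ 2 μ, f ∈ K → g ∈ K → h =ᵐ[μ] (fun x => f x * g x) → h ∈ K) →
  ∃ (X : Type) (_ : NormedCommRing X) (_ : NormedAlgebra ℝ X) (_ : CompleteSpace X)
    (Y : Submodule ℝ (Lp ℝ 4 μ)) (A : Alg X Y K), IsClosed (Y : Set (Lp ℝ 4 μ)) ∧
    (∀ (y : Lp ℝ 4 μ) (h : Lp ℝ 2 μ), h ∈ K → h =ᵐ[μ] y → y ∈ Y) ∧
    (∀ y : Y, ((A.j y : K) : Lp ℝ 2 μ) =ᵐ[μ] ((y : Lp ℝ 4 μ) : T → ℝ)) ∧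
    (∀ x, ∀ᵐ z ∂μ, |((A.e x : K) : Lp ℝ 2 μ) z| ≤ ‖x‖) ∧
    (∀ (h : K) (C : ℝ), 0 ≤ C → (∀ᵐ z ∂μ, |(h : Lp ℝ 2 μ) z| ≤ C) → ∃ x, A.e x = h ∧ ‖x‖ ≤ C) ∧
    (∀ x x', ((A.e (x * x') : K) : Lp ℝ 2 μ) =ᵐ[μ]
      fun z => ((A.e x : K) : Lp ℝ 2 μ) z * ((A.e x' : K) : Lp ℝ 2 μ) z) ∧
    (((A.e 1 : K) : Lp ℝ 2 μ) =ᵐ[μ] fun _ => 1)

/-- WVK: all the operators on the subspace (uses ALK and `emb`, `sta`, `spc` of
`Helper70_BE01/All.lean`, `BE01.H94.dns`, `BE01.H94.inc`, `BE01.H72.hsc`).  Copy and edit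
`Helper70_BE01/Wvc2.lean`: `ι2`, `T`, `S = ι2 T` there; `S h ∈ K` for `h ∈ K` by `Kst.slv`.
`V_K = {G : VV Ω | ι2 G ∈ K}`, a closed subspace, `ι_K : V_K → K` the restriction of `ι2`; its adjoint is
the restriction of `T` (`T h ∈ V_K` for `h ∈ K`), `ι_K ι_K† = S|_K`, compact; `ι_K` has dense range: an
element of `K` orthogonal to the range is orthogonal to `S h` for all `h ∈ K`, so `S` of it is `0`, so
it is `0` (`S` is injective: `⟪S h, h⟫ = ‖T h‖²`, and `T` is injective as `ι2` has dense range).  `spc`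
for `ι_K` gives `R, C, Sn, U`; `SX`: `S h` is bounded by `C0 ‖h‖` (`sta`) and in `K` (ALK lifts it);
`RY h = J64 (ι (U h)) ∈ Y` (ALK).  `Z` is the restriction. -/
def WvkStmt : Prop := ∀ (d : ℕ) (Ω : Set (En d)) (K : Submodule ℝ (Lp ℝ 2 (mu Ω))),
  (d = 2 ∨ d = 3) → Dom Ω → Kst Ω K →
  ∃ (X : Type) (_ : NormedCommRing X) (_ : NormedAlgebra ℝ X) (_ : CompleteSpace X)
    (Y : Submodule ℝ (Lp ℝ 4 (mu Ω))) (A : Alg X Y K) (W : Wv A)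
    (Z : K →L[ℝ] Lp (En d) 2 (mu Ω)), IsClosed (Y : Set (Lp ℝ 4 (mu Ω))) ∧
    (∀ x, ∀ᵐ z ∂(mu Ω), |((A.e x : K) : Lp ℝ 2 (mu Ω)) z| ≤ ‖x‖) ∧
    (∀ (x : X) (C : ℝ), 0 ≤ C → (∀ᵐ z ∂(mu Ω), |((A.e x : K) : Lp ℝ 2 (mu Ω)) z| ≤ C) →
      ‖x‖ ≤ C) ∧
    (∀ x x', ((A.e (x * x') : K) : Lp ℝ 2 (mu Ω)) =ᵐ[mu Ω]
      fun z => ((A.e x : K) : Lp ℝ 2 (mu Ω)) z * ((A.e x' : K) : Lp ℝ 2 (mu Ω)) z) ∧
    (((A.e 1 : K) : Lp ℝ 2 (mu Ω)) =ᵐ[mu Ω] fun _ => 1) ∧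
    IsCompactOperator W.S ∧
    (∀ h : K, (((W.S h : K) : Lp ℝ 2 (mu Ω)), Z h) ∈ H10 Ω) ∧
    (∀ h : K, ‖Z h‖ ^ 2 = ⟪h, W.S h⟫_ℝ) ∧
    (∀ h : K, Wk Ω (Z h) (h : Lp ℝ 2 (mu Ω))) ∧
    ∀ (l : ℝ) (u : K), IsEig Ω l (u : Lp ℝ 2 (mu Ω)) ↔ u = l • W.S u

/-- FNX: the explicit form for a subspace (uses WVK, `BE01.FreStmt`,
`Pool.Agent.Helper70BE01Scl.SclStmt`).  Copy and edit `Helper70_BE01/Fnl2.lean`, with `H = K` (complete,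
as it is closed), and `SclStmt` for `X, Y, K`.  The solution is `u t` etc. as elements of `L²` (the
inclusion of `K` in `L²` is continuous linear). -/
def FnxStmt : Prop := ∀ (d : ℕ) (Ω : Set (En d)) (K : Submodule ℝ (Lp ℝ 2 (mu Ω))) (p k : ℕ)
  (a l B : ℝ) (φ : Lp ℝ 2 (mu Ω)), (d = 2 ∨ d = 3) → Dom Ω → Kst Ω K → 1 ≤ p → 0 < a → φ ∈ K →
  φ ≠ 0 → IsEig Ω l φ → (∀ u ∈ K, IsEig Ω l u → ∃ c : ℝ, u = c • φ) →
  (∀ᵐ x ∂(mu Ω), |φ x| ≤ B) →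
  (2 * p + 1) * B ^ (2 * p) * ∫ x, φ x ^ 2 ∂(mu Ω) <
    k * (p * cp p * ∫ x, φ x ^ (2 * p + 2) ∂(mu Ω)) →
  (∀ n : ℕ, Odd n → 3 ≤ n → n ≤ 1 + 2 * p * k → ∀ u ∈ K,
    IsEig Ω ((n : ℝ) ^ 2 * l) u → u = 0) → Rt Ω a ((2 * p : ℕ) : ℝ)

/-- FGX: the explicit form for symmetries (uses KSY, FNX). -/
def FgxStmt : Prop := ∀ (d : ℕ) (Ω : Set (En d)) (G : Set ((En d ≃ₗᵢ[ℝ] En d) × En d))
  (p k : ℕ) (a l B : ℝ) (φ : Lp ℝ 2 (mu Ω)), (d = 2 ∨ d = 3) → Dom Ω → Syms Ω G → 1 ≤ p →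
  0 < a → Inv Ω G φ → φ ≠ 0 → IsEig Ω l φ →
  (∀ u, Inv Ω G u → IsEig Ω l u → ∃ c : ℝ, u = c • φ) → (∀ᵐ x ∂(mu Ω), |φ x| ≤ B) →
  (2 * p + 1) * B ^ (2 * p) * ∫ x, φ x ^ 2 ∂(mu Ω) <
    k * (p * cp p * ∫ x, φ x ^ (2 * p + 2) ∂(mu Ω)) →
  (∀ n : ℕ, Odd n → 3 ≤ n → n ≤ 1 + 2 * p * k → ∀ u, Inv Ω G u →
    IsEig Ω ((n : ℝ) ^ 2 * l) u → u = 0) → Rt Ω a ((2 * p : ℕ) : ℝ)

end

end Pool.Agent.BEG
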